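import Pool.Agent.Lib.MP_7ea278_ag.Main2

namespace Pool.Agent.Results.MP_7ea278_ag.CubeCriterion

/-- A discrete polymatroid on `Fin n`: a nonempty finite set of vectors of natural numbers,
closed under passing to smaller vectors and satisfying the augmentation axiom. -/
def IsDiscretePolymatroid {n : ℕ} (P : Finset (Fin n → ℕ)) : Prop :=
  P.Nonempty ∧ (∀ u ∈ P, ∀ v : Fin n → ℕ, v ≤ u → v ∈ P) ∧
    ∀ u ∈ P, ∀ v ∈ P, ∑ i, u i < ∑ i, v i → ∃ i, u i < v i ∧ u + Pi.single i 1 ∈ P

/-- A matroid: a discrete polymatroid all of whose vectors are `0/1` vectors. -/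
def IsMatroid {n : ℕ} (P : Finset (Fin n → ℕ)) : Prop :=
  IsDiscretePolymatroid P ∧ ∀ u ∈ P, ∀ i, u i ≤ 1

/-- The bases: the elements of maximal modulus. -/
def bases {n : ℕ} (P : Finset (Fin n → ℕ)) : Finset (Fin n → ℕ) :=
  P.filter fun u => ∀ v ∈ P, ∑ i, v i ≤ ∑ i, u i

/-- The monomial map `y_b ↦ x^b`, one variable `y_b` for each base `b`. -/
noncomputable def toricMap (K : Type) [Field K] {n : ℕ} (B : Finset (Fin n → ℕ)) :
    MvPolynomial B K →ₐ[K] MvPolynomial (Fin n) K :=
  MvPolynomial.aeval fun b => ∏ i, (MvPolynomial.X i) ^ (b.1 i)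

/-- The toric ideal, the kernel of the monomial map. -/
noncomputable def toricIdeal (K : Type) [Field K] {n : ℕ} (B : Finset (Fin n → ℕ)) :
    Ideal (MvPolynomial B K) := RingHom.ker (toricMap K B)

/-- The base ring, the quotient by the toric ideal. -/
abbrev BaseRing (K : Type) [Field K] {n : ℕ} (B : Finset (Fin n → ℕ)) : Type :=
  MvPolynomial B K ⧸ toricIdeal K B

/-- The component of degree one of the base ring: the span of the classes of the variables. -/
noncomputable def degOne (K : Type) [Field K] {n : ℕ} (B : Finset (Fin n → ℕ)) :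
    Submodule K (BaseRing K B) :=
  Submodule.span K (Set.range fun b : B => Ideal.Quotient.mk (toricIdeal K B) (MvPolynomial.X b))

/-- A standard graded `K`-algebra `R` with component `V` of degree one is Koszul: its residue
field has a linear free resolution `⋯ → R ^ r 2 → R ^ r 1 → R ^ r 0 = R`. The maps are given by
matrices with entries in `V`, the image of the first map is `R₊`, and the sequence is exact. -/
def IsKoszulAlg (K R : Type) [Field K] [CommRing R] [Algebra K R] (V : Submodule K R) : Prop :=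
  ∃ (r : ℕ → ℕ) (A : ∀ i, Matrix (Fin (r i)) (Fin (r (i + 1))) R),
    r 0 = 1 ∧ (∀ i p q, A i p q ∈ V) ∧
    (∀ v : Fin (r 0) → R, (∀ p, v p ∈ Ideal.span (V : Set R)) ↔ ∃ w, v = (A 0).mulVec w) ∧
    ∀ i, ∀ v : Fin (r (i + 1)) → R, (A i).mulVec v = 0 ↔ ∃ w, v = (A (i + 1)).mulVec w

/-- The base ring over `K` of the discrete polymatroid `P` is Koszul. -/
def KoszulBaseRing (K : Type) [Field K] {n : ℕ} (P : Finset (Fin n → ℕ)) : Prop :=
  IsKoszulAlg K (BaseRing K (bases P)) (degOne K (bases P))

/-- `M` is the section of `P` by the unit cube with lower corner `q`: the bases of `M` are the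
`0/1` vectors `b` such that `b + q` is a base of `P`. -/
def IsCubeSection {n : ℕ} (P : Finset (Fin n → ℕ)) (q : Fin n → ℕ) (M : Finset (Fin n → ℕ)) :
    Prop :=
  ∀ b : Fin n → ℕ, b ∈ bases M ↔ (∀ i, b i ≤ 1) ∧ b + q ∈ bases P

/-- The base ring of a discrete polymatroid of positive rank is Koszul as soon as the base ring
of each of its unit cube sections (matroids on the same ground set) of positive rank is Koszul. -/
theorem result (K : Type) [Field K] (n : ℕ) (P : Finset (Fin n → ℕ))
    (hP : IsDiscretePolymatroid P) (h0 : P ≠ {0})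
    (h : ∀ (q : Fin n → ℕ) (M : Finset (Fin n → ℕ)), IsMatroid M → M ≠ {0} →
      IsCubeSection P q M → KoszulBaseRing K M) :
    KoszulBaseRing K P :=
  MP7ea278.local_criterion K n P hP h0
    (fun q M hM h01 hM0 hsec => h q M ⟨hM, h01⟩ hM0 hsec)

end Pool.Agent.Results.MP_7ea278_ag.CubeCriterion
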