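import Pool.Agent.Lib.MP_7ea278_ag.Sv.Final

namespace Pool.Agent.Results.MP_7ea278_ag.SevenElements

/-- A discrete polymatroid on `Fin n`: a nonempty finite set of vectors of natural numbers,
closed under passing to smaller vectors and satisfying the augmentation axiom. -/
def IsDiscretePolymatroid {n : ℕ} (P : Finset (Fin n → ℕ)) : Prop :=
  P.Nonempty ∧ (∀ u ∈ P, ∀ v : Fin n → ℕ, v ≤ u → v ∈ P) ∧
    ∀ u ∈ P, ∀ v ∈ P, ∑ i, u i < ∑ i, v i → ∃ i, u i < v i ∧ u + Pi.single i 1 ∈ P

/-- The bases: the elements of maximal modulus. -/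
def bases {n : ℕ} (P : Finset (Fin n → ℕ)) : Finset (Fin n → ℕ) :=
  P.filter fun u => ∀ v ∈ P, ∑ i, v i ≤ ∑ i, u i

/-- The monomial map `y_b ↦ x^b`, one variable `y_b` for each base `b`. -/
noncomputable def toricMap (K : Type) [Field K] {n : ℕ} (B : Finset (Fin n → ℕ)) :
    MvPolynomial B K →ₐ[K] MvPolynomial (Fin n) K :=
  MvPolynomial.aeval fun b => ∏ i, (MvPolynomial.X i) ^ (b.1 i)

/-- The toric ideal, the kernel of the monomial map. -/
noncomputable def toricIdeal (K : Type) [Field K] {n : ℕ} (B : Finset (Fin n → ℕ)) :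
    Ideal (MvPolynomial B K) := RingHom.ker (toricMap K B)

/-- The base ring, the quotient by the toric ideal. -/
abbrev BaseRing (K : Type) [Field K] {n : ℕ} (B : Finset (Fin n → ℕ)) : Type :=
  MvPolynomial B K ⧸ toricIdeal K B

/-- The component of degree one of the base ring: the span of the classes of the variables. -/
noncomputable def degOne (K : Type) [Field K] {n : ℕ} (B : Finset (Fin n → ℕ)) :
    Submodule K (BaseRing K B) :=
  Submodule.span K (Set.range fun b : B => Ideal.Quotient.mk (toricIdeal K B) (MvPolynomial.X b))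

/-- A standard graded `K`-algebra `R` with component `V` of degree one is Koszul: its residue
field has a linear free resolution `⋯ → R ^ r 2 → R ^ r 1 → R ^ r 0 = R`. The maps are given by
matrices with entries in `V`, the image of the first map is `R₊`, and the sequence is exact. -/
def IsKoszulAlg (K R : Type) [Field K] [CommRing R] [Algebra K R] (V : Submodule K R) : Prop :=
  ∃ (r : ℕ → ℕ) (A : ∀ i, Matrix (Fin (r i)) (Fin (r (i + 1))) R),
    r 0 = 1 ∧ (∀ i p q, A i p q ∈ V) ∧
    (∀ v : Fin (r 0) → R, (∀ p, v p ∈ Ideal.span (V : Set R)) ↔ ∃ w, v = (A 0).mulVec w) ∧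
    ∀ i, ∀ v : Fin (r (i + 1)) → R, (A i).mulVec v = 0 ↔ ∃ w, v = (A (i + 1)).mulVec w

/-- The base ring over `K` of the discrete polymatroid `P` is Koszul. -/
def KoszulBaseRing (K : Type) [Field K] {n : ℕ} (P : Finset (Fin n → ℕ)) : Prop :=
  IsKoszulAlg K (BaseRing K (bases P)) (degOne K (bases P))

/-- The section of `P` by the unit cube with lower corner `q`: the `0/1` vectors `b` such that
`b + q` is a base of `P`. -/
def cubeSection {n : ℕ} (P : Finset (Fin n → ℕ)) (q : Fin n → ℕ) : Set (Fin n → ℕ) :=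
  {b | (∀ i, b i ≤ 1) ∧ b + q ∈ bases P}

/-- `B` is, for some labelling `σ` of the ground set by the residues modulo seven, the set of
bases of the Fano matroid with the seven lines `a, a + 1, a + 3`: the sets of three elements
which are not a line. In particular the ground set has seven elements. -/
def IsFano {n : ℕ} (B : Set (Fin n → ℕ)) : Prop :=
  ∃ σ : Fin 7 ≃ Fin n, B = {b | (∀ i, b i ≤ 1) ∧ ∑ i, b i = 3 ∧
    ∀ a : Fin 7, b (σ a) + b (σ (a + 1)) + b (σ (a + 3)) ≤ 2}

/-- `B` is, for some labelling, the set of bases of the dual of the Fano matroid: the sets of four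
elements which meet every line. -/
def IsFanoDual {n : ℕ} (B : Set (Fin n → ℕ)) : Prop :=
  ∃ σ : Fin 7 ≃ Fin n, B = {b | (∀ i, b i ≤ 1) ∧ ∑ i, b i = 4 ∧
    ∀ a : Fin 7, 1 ≤ b (σ a) + b (σ (a + 1)) + b (σ (a + 3))}

/-- The base ring of a discrete polymatroid of positive rank on at most seven elements is Koszul
if none of its unit cube sections is the Fano matroid or its dual. On at most six elements the
hypothesis `hF` holds for every discrete polymatroid. -/
theorem result (K : Type) [Field K] (n : ℕ) (hn : n ≤ 7) (P : Finset (Fin n → ℕ))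
    (hP : IsDiscretePolymatroid P) (h0 : P ≠ {0})
    (hF : ∀ q : Fin n → ℕ, ¬ IsFano (cubeSection P q) ∧ ¬ IsFanoDual (cubeSection P q)) :
    KoszulBaseRing K P :=
  MP7ea278.koszul_le_seven K n hn P hP h0 hF

end Pool.Agent.Results.MP_7ea278_ag.SevenElements
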